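import Pool.Agent.Helper96.CW.HOM
import Pool.Agent.Helper62.CW.BND

/-!
# A determinantal representation of an irreducible cubic with enough points
(module IRRB of MP_526055_co)
-/

set_option autoImplicit false

namespace Pool.Agent.Helper74.CW

open Module Polynomial

variable {F : Type*} [Field F]

/-- the ternary cubic with given coefficients -/
def IRRB_cub {R : Type*} [CommRing R] (c : Fin 10 → R) (x y z : R) : R :=
  c 0 * x ^ 3 + c 1 * (x ^ 2 * y) + c 2 * (x ^ 2 * z) + c 3 * (x * y ^ 2) + c 4 * (x * y * z) +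
    c 5 * (x * z ^ 2) + c 6 * y ^ 3 + c 7 * (y ^ 2 * z) + c 8 * (y * z ^ 2) + c 9 * z ^ 3

/-- the derivative at `p` in the direction `q` -/
def IRRB_D {R : Type*} [CommRing R] (c : Fin 10 → R) (p q : Fin 3 → R) : R :=
  q 0 * (3 * c 0 * p 0 ^ 2 + 2 * c 1 * p 0 * p 1 + 2 * c 2 * p 0 * p 2 + c 3 * p 1 ^ 2 +
    c 4 * p 1 * p 2 + c 5 * p 2 ^ 2) +
  q 1 * (c 1 * p 0 ^ 2 + 2 * c 3 * p 0 * p 1 + c 4 * p 0 * p 2 + 3 * c 6 * p 1 ^ 2 +
    2 * c 7 * p 1 * p 2 + c 8 * p 2 ^ 2) +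
  q 2 * (c 2 * p 0 ^ 2 + c 4 * p 0 * p 1 + 2 * c 5 * p 0 * p 2 + c 7 * p 1 ^ 2 +
    2 * c 8 * p 1 * p 2 + 3 * c 9 * p 2 ^ 2)

/-- the trilinear form -/
def IRRB_T {R : Type*} [CommRing R] (c : Fin 10 → R) (r p q : Fin 3 → R) : R :=
  6 * c 0 * (r 0 * p 0 * q 0) +
  2 * c 1 * (r 0 * p 0 * q 1 + r 0 * q 0 * p 1 + p 0 * q 0 * r 1) +
  2 * c 2 * (r 0 * p 0 * q 2 + r 0 * q 0 * p 2 + p 0 * q 0 * r 2) +
  2 * c 3 * (r 0 * p 1 * q 1 + p 0 * r 1 * q 1 + q 0 * r 1 * p 1) +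
  c 4 * (r 0 * p 1 * q 2 + r 0 * q 1 * p 2 + p 0 * r 1 * q 2 + p 0 * q 1 * r 2 +
    q 0 * r 1 * p 2 + q 0 * p 1 * r 2) +
  2 * c 5 * (r 0 * p 2 * q 2 + p 0 * r 2 * q 2 + q 0 * r 2 * p 2) +
  6 * c 6 * (r 1 * p 1 * q 1) +
  2 * c 7 * (r 1 * p 1 * q 2 + r 1 * q 1 * p 2 + p 1 * q 1 * r 2) +
  2 * c 8 * (r 1 * p 2 * q 2 + p 1 * r 2 * q 2 + q 1 * r 2 * p 2) +
  6 * c 9 * (r 2 * p 2 * q 2)

theorem IRRB_subst {R : Type*} [CommRing R] (c : Fin 10 → R) (r p q : Fin 3 → R) (x y z : R) :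
    IRRB_cub c (r 0 * x + p 0 * y + q 0 * z) (r 1 * x + p 1 * y + q 1 * z)
      (r 2 * x + p 2 * y + q 2 * z) =
    IRRB_cub ![IRRB_cub c (r 0) (r 1) (r 2), IRRB_D c r p, IRRB_D c r q, IRRB_D c p r,
      IRRB_T c r p q, IRRB_D c q r, IRRB_cub c (p 0) (p 1) (p 2), IRRB_D c p q, IRRB_D c q p,
      IRRB_cub c (q 0) (q 1) (q 2)] x y z := by
  have e : ∀ d0 d1 d2 d3 d4 d5 d6 d7 d8 d9 : R,
      IRRB_cub ![d0, d1, d2, d3, d4, d5, d6, d7, d8, d9] x y z =
      d0 * x ^ 3 + d1 * (x ^ 2 * y) + d2 * (x ^ 2 * z) + d3 * (x * y ^ 2) + d4 * (x * y * z) +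
        d5 * (x * z ^ 2) + d6 * y ^ 3 + d7 * (y ^ 2 * z) + d8 * (y * z ^ 2) + d9 * z ^ 3 := by
    intro d0 d1 d2 d3 d4 d5 d6 d7 d8 d9
    simp [IRRB_cub]
  rw [e]
  unfold IRRB_cub IRRB_D IRRB_T
  ring

/-- a product of three linear forms -/
theorem IRRB_prod (a b c : Fin 3 → F) (x y z : MvPolynomial (Fin 3) F) :
    ∃ d : Fin 10 → F, (MvPolynomial.C (a 0) * x + MvPolynomial.C (a 1) * y +
      MvPolynomial.C (a 2) * z) * (MvPolynomial.C (b 0) * x + MvPolynomial.C (b 1) * y +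
      MvPolynomial.C (b 2) * z) * (MvPolynomial.C (c 0) * x + MvPolynomial.C (c 1) * y +
      MvPolynomial.C (c 2) * z) = IRRB_cub (fun i => MvPolynomial.C (d i)) x y z := by
  refine ⟨![a 0 * b 0 * c 0, a 0 * b 0 * c 1 + a 0 * b 1 * c 0 + a 1 * b 0 * c 0,
    a 0 * b 0 * c 2 + a 0 * b 2 * c 0 + a 2 * b 0 * c 0,
    a 0 * b 1 * c 1 + a 1 * b 0 * c 1 + a 1 * b 1 * c 0,
    a 0 * b 1 * c 2 + a 0 * b 2 * c 1 + a 1 * b 0 * c 2 + a 1 * b 2 * c 0 + a 2 * b 0 * c 1 +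
      a 2 * b 1 * c 0,
    a 0 * b 2 * c 2 + a 2 * b 0 * c 2 + a 2 * b 2 * c 0, a 1 * b 1 * c 1,
    a 1 * b 1 * c 2 + a 1 * b 2 * c 1 + a 2 * b 1 * c 1,
    a 1 * b 2 * c 2 + a 2 * b 1 * c 2 + a 2 * b 2 * c 1, a 2 * b 2 * c 2], ?_⟩
  simp only [IRRB_cub, Matrix.cons_val, map_add, map_mul]
  ring

open Pointwise in
/-- a homogeneous cubic is a combination of the ten monomials -/
theorem IRRB_exp {C : MvPolynomial (Fin 3) F} (hC : C.IsHomogeneous 3) :
    ∃ c : Fin 10 → F, C = IRRB_cub (fun i => MvPolynomial.C (c i)) (MvPolynomial.X 0)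
      (MvPolynomial.X 1) (MvPolynomial.X 2) := by
  have h1 : C ∈ MvPolynomial.homogeneousSubmodule (Fin 3) F 3 := hC
  rw [← MvPolynomial.homogeneousSubmodule_one_pow,
    MvPolynomial.homogeneousSubmodule_one_eq_span_X, Submodule.span_pow] at h1
  clear hC
  induction h1 using Submodule.span_induction with
  | mem x hx =>
    rw [pow_succ, pow_two] at hx
    obtain ⟨_, ⟨_, ⟨i, rfl⟩, _, ⟨j, rfl⟩, rfl⟩, _, ⟨k, rfl⟩, rfl⟩ := hx
    simp only
    have e : ∀ i : Fin 3, (MvPolynomial.X i : MvPolynomial (Fin 3) F) =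
        MvPolynomial.C ((Pi.single i 1 : Fin 3 → F) 0) * MvPolynomial.X 0 +
        MvPolynomial.C ((Pi.single i 1 : Fin 3 → F) 1) * MvPolynomial.X 1 +
        MvPolynomial.C ((Pi.single i 1 : Fin 3 → F) 2) * MvPolynomial.X 2 := by
      intro i
      fin_cases i <;> simp
    rw [e i, e j, e k]
    exact IRRB_prod _ _ _ _ _ _
  | zero => exact ⟨0, by simp [IRRB_cub]⟩
  | add x y _ _ hx hy =>
    obtain ⟨c, hc⟩ := hx
    obtain ⟨d, hd⟩ := hy
    refine ⟨c + d, ?_⟩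
    rw [hc, hd]
    simp only [IRRB_cub, Pi.add_apply, map_add]
    ring
  | smul a x _ hx =>
    obtain ⟨c, hc⟩ := hx
    refine ⟨a • c, ?_⟩
    rw [hc]
    simp only [IRRB_cub, Pi.smul_apply, smul_eq_mul, map_mul, MvPolynomial.smul_eq_C_mul]
    ring

theorem IRRB_aeval {S : Type*} [CommRing S] [Algebra F S] (c : Fin 10 → F) (u : Fin 3 → S) :
    MvPolynomial.aeval u (IRRB_cub (fun i => (MvPolynomial.C (c i) : MvPolynomial (Fin 3) F))
      (MvPolynomial.X 0) (MvPolynomial.X 1) (MvPolynomial.X 2)) =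
    IRRB_cub (fun i => algebraMap F S (c i)) (u 0) (u 1) (u 2) := by
  simp [IRRB_cub]

theorem IRRB_eval (c : Fin 10 → F) (u : Fin 3 → F) :
    MvPolynomial.eval u (IRRB_cub (fun i => (MvPolynomial.C (c i) : MvPolynomial (Fin 3) F))
      (MvPolynomial.X 0) (MvPolynomial.X 1) (MvPolynomial.X 2)) =
    IRRB_cub c (u 0) (u 1) (u 2) := by
  simp [IRRB_cub]

/-- the matrix with given columns -/
def IRRB_g (r p q : Fin 3 → F) : Matrix (Fin 3) (Fin 3) F :=
  !![r 0, p 0, q 0; r 1, p 1, q 1; r 2, p 2, q 2]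

/-- the substitution with given columns -/
theorem IRRB_change (c : Fin 10 → F) (r p q : Fin 3 → F) :
    MvPolynomial.aeval (fun i => ∑ j, MvPolynomial.C (IRRB_g r p q i j) *
      (MvPolynomial.X j : MvPolynomial (Fin 3) F))
      (IRRB_cub (fun i => (MvPolynomial.C (c i) : MvPolynomial (Fin 3) F))
        (MvPolynomial.X 0) (MvPolynomial.X 1) (MvPolynomial.X 2)) =
    IRRB_cub (fun i => MvPolynomial.C ((![IRRB_cub c (r 0) (r 1) (r 2), IRRB_D c r p,
      IRRB_D c r q, IRRB_D c p r,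
      IRRB_T c r p q, IRRB_D c q r, IRRB_cub c (p 0) (p 1) (p 2), IRRB_D c p q, IRRB_D c q p,
      IRRB_cub c (q 0) (q 1) (q 2)] : Fin 10 → F) i)) (MvPolynomial.X 0)
        (MvPolynomial.X 1) (MvPolynomial.X 2) := by
  rw [IRRB_aeval]
  have h := IRRB_subst (fun i => (MvPolynomial.C (c i) : MvPolynomial (Fin 3) F))
    (fun i => MvPolynomial.C (r i)) (fun i => MvPolynomial.C (p i))
    (fun i => MvPolynomial.C (q i)) (MvPolynomial.X 0) (MvPolynomial.X 1) (MvPolynomial.X 2)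
  have e1 : ∀ i : Fin 3, ∑ j, MvPolynomial.C (IRRB_g r p q i j) *
      (MvPolynomial.X j : MvPolynomial (Fin 3) F) = MvPolynomial.C (r i) * MvPolynomial.X 0 +
      MvPolynomial.C (p i) * MvPolynomial.X 1 + MvPolynomial.C (q i) * MvPolynomial.X 2 := by
    intro i
    rw [Fin.sum_univ_three]
    fin_cases i <;> simp [IRRB_g]
  rw [e1 0, e1 1, e1 2]
  refine h.trans ?_
  congr 1
  funext i
  have h2 : MvPolynomial.C (2 : F) = (2 : MvPolynomial (Fin 3) F) := map_ofNat _ 2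
  have h3 : MvPolynomial.C (3 : F) = (3 : MvPolynomial (Fin 3) F) := map_ofNat _ 3
  have h6 : MvPolynomial.C (6 : F) = (6 : MvPolynomial (Fin 3) F) := map_ofNat _ 6
  have f1 : ∀ p q : Fin 3 → F, IRRB_D (fun i => (MvPolynomial.C (c i) : MvPolynomial (Fin 3) F))
      (fun i => MvPolynomial.C (p i)) (fun i => MvPolynomial.C (q i)) =
      MvPolynomial.C (IRRB_D c p q) := by
    intro p q
    simp only [IRRB_D, map_add, map_mul, map_pow, h2, h3]
  have f2 : ∀ p : Fin 3 → F, IRRB_cub (fun i => (MvPolynomial.C (c i) : MvPolynomial (Fin 3) F))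
      (MvPolynomial.C (p 0)) (MvPolynomial.C (p 1)) (MvPolynomial.C (p 2)) =
      MvPolynomial.C (IRRB_cub c (p 0) (p 1) (p 2)) := by
    intro p
    simp only [IRRB_cub, map_add, map_mul, map_pow]
  have f3 : IRRB_T (fun i => (MvPolynomial.C (c i) : MvPolynomial (Fin 3) F))
      (fun i => MvPolynomial.C (r i)) (fun i => MvPolynomial.C (p i))
      (fun i => MvPolynomial.C (q i)) = MvPolynomial.C (IRRB_T c r p q) := by
    simp only [IRRB_T, map_add, map_mul, h2, h6]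
  rw [f1, f1, f1, f1, f1, f1, f2, f2, f2, f3]
  fin_cases i <;> rfl

theorem IRRB_noX {C Q : MvPolynomial (Fin 3) F} (hC : Irreducible C) (hhom : C.IsHomogeneous 3)
    (h : C = MvPolynomial.X 0 * Q) : False := by
  rcases hC.isUnit_or_isUnit h with h1 | h1
  · have h2 := BND_unit h1
    rw [MvPolynomial.totalDegree_X] at h2
    exact one_ne_zero h2
  · have h2 := BND_unit h1
    have h3 : C.totalDegree = 3 := hhom.totalDegree hC.ne_zero
    rw [h, MvPolynomial.totalDegree_mul_of_isDomain (MvPolynomial.X_ne_zero _) h1.ne_zero, h2,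
      MvPolynomial.totalDegree_X] at h3
    omega

theorem IRRB_det (r p q : Fin 3 → F) : (IRRB_g r p q).det =
    r 0 * (p 1 * q 2 - p 2 * q 1) + r 1 * (p 2 * q 0 - p 0 * q 2) +
      r 2 * (p 0 * q 1 - p 1 * q 0) := by
  rw [Matrix.det_fin_three]
  simp [IRRB_g]
  ring

/-- the cubic form with coefficients `c` -/
noncomputable def IRRB_P (c : Fin 10 → F) : MvPolynomial (Fin 3) F :=
  IRRB_cub (fun i => MvPolynomial.C (c i)) (MvPolynomial.X 0) (MvPolynomial.X 1)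
    (MvPolynomial.X 2)

/-- there is no line on an irreducible cubic -/
theorem IRRB_line [Finite F] {c : Fin 10 → F} (hC : Irreducible (IRRB_P c))
    (hhom : (IRRB_P c).IsHomogeneous 3) {r p q : Fin 3 → F} (hdet : (IRRB_g r p q).det ≠ 0)
    (h1 : IRRB_cub c (p 0) (p 1) (p 2) = 0) (h2 : IRRB_D c p q = 0) (h3 : IRRB_D c q p = 0)
    (h4 : IRRB_cub c (q 0) (q 1) (q 2) = 0) : False := by
  obtain ⟨i1, i2, -, -⟩ := subst_facts (K := F) hC hhom (g := IRRB_g r p q)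
    (isUnit_iff_ne_zero.2 hdet)
  unfold IRRB_P at i1 i2
  rw [IRRB_change] at i1 i2
  generalize hc0 : IRRB_cub c (r 0) (r 1) (r 2) = c0 at i1 i2
  refine IRRB_noX i1 i2
    (Q := MvPolynomial.C c0 * MvPolynomial.X 0 ^ 2 +
      MvPolynomial.C (IRRB_D c r p) * MvPolynomial.X 0 * MvPolynomial.X 1 +
      MvPolynomial.C (IRRB_D c r q) * MvPolynomial.X 0 * MvPolynomial.X 2 +
      MvPolynomial.C (IRRB_D c p r) * MvPolynomial.X 1 ^ 2 +
      MvPolynomial.C (IRRB_T c r p q) * MvPolynomial.X 1 * MvPolynomial.X 2 +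
      MvPolynomial.C (IRRB_D c q r) * MvPolynomial.X 2 ^ 2) ?_
  rw [h1, h2, h3, h4]
  conv_lhs => unfold IRRB_cub
  simp only [Matrix.cons_val, map_zero, zero_mul, add_zero]
  ring

theorem IRRB_ext {p q : Fin 3 → F} (hp : p ≠ 0) (h : ∀ t : F, q ≠ t • p) :
    ∃ r, (IRRB_g r p q).det ≠ 0 := by
  by_contra hcon
  push Not at hcon
  have e0 := hcon ![1, 0, 0]
  have e1 := hcon ![0, 1, 0]
  have e2 := hcon ![0, 0, 1]
  rw [IRRB_det] at e0 e1 e2
  simp at e0 e1 e2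
  obtain ⟨i, hi⟩ := Function.ne_iff.1 hp
  have hi' : p i ≠ 0 := hi
  have key : ∀ j, p i * q j = p j * q i := by
    intro j
    have f0 : p 1 * q 2 = p 2 * q 1 := by linear_combination e0
    have f1 : p 0 * q 2 = p 2 * q 0 := by linear_combination -e1
    have f2 : p 0 * q 1 = p 1 * q 0 := by linear_combination e2
    fin_cases i <;> fin_cases j <;> first | rfl | exact f0 | exact f1 | exact f2 | exact f0.symm | exact f1.symm | exact f2.symm
  apply h (q i / p i)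
  funext j
  rw [Pi.smul_apply, smul_eq_mul, div_mul_eq_mul_div, eq_div_iff hi']
  linear_combination key j

theorem IRRB_card [Finite F] {A : Set (Fin 3 → F)} (h0 : ∀ v ∈ A, v ≠ 0)
    (h : ∀ p ∈ A, ∀ q ∈ A, ∃ t : F, q = t • p) : A.ncard ≤ Nat.card F - 1 := by
  rcases A.eq_empty_or_nonempty with h1 | ⟨p, hp⟩
  · rw [h1, Set.ncard_empty]
    exact Nat.zero_le _
  · have h2 : A ⊆ (fun t : Fˣ => (t : F) • p) '' Set.univ := by
      intro q hq
      obtain ⟨t, ht⟩ := h p hp q hq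
      have ht0 : t ≠ 0 := by
        rintro rfl
        exact h0 q hq (by rw [ht, zero_smul])
      exact ⟨Units.mk0 t ht0, Set.mem_univ _, ht.symm⟩
    calc A.ncard ≤ ((fun t : Fˣ => (t : F) • p) '' Set.univ).ncard :=
          Set.ncard_le_ncard h2 (Set.toFinite _)
      _ ≤ (Set.univ : Set Fˣ).ncard := Set.ncard_image_le (Set.toFinite _)
      _ = Nat.card F - 1 := by rw [Set.ncard_univ, Nat.card_units]

theorem IRRB_D_add (c : Fin 10 → F) (p q r : Fin 3 → F) (t : F) :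
    IRRB_D c p (r + t • q) = IRRB_D c p r + t * IRRB_D c p q := by
  simp only [IRRB_D, Pi.add_apply, Pi.smul_apply, smul_eq_mul]
  ring

theorem IRRB_D_self (c : Fin 10 → F) (p : Fin 3 → F) :
    IRRB_D c p p = 3 * IRRB_cub c (p 0) (p 1) (p 2) := by
  simp only [IRRB_D, IRRB_cub]
  ring

theorem IRRB_D_zero {c : Fin 10 → F} {p r q : Fin 3 → F} (hdet : (IRRB_g r p q).det ≠ 0)
    {v : Fin 3 → F} (h1 : IRRB_D c v r = 0) (h2 : IRRB_D c v p = 0) (h3 : IRRB_D c v q = 0)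
    (w : Fin 3 → F) : IRRB_D c v w = 0 := by
  have hu : IsUnit (IRRB_g r p q).det := isUnit_iff_ne_zero.2 hdet
  set a := (IRRB_g r p q)⁻¹.mulVec w with ha
  have hw : w = (IRRB_g r p q).mulVec a := by
    rw [ha, Matrix.mulVec_mulVec, Matrix.mul_nonsing_inv _ hu, Matrix.one_mulVec]
  have hw2 : w = (a 0 • r + a 1 • p) + a 2 • q := by
    rw [hw]
    funext i
    rw [Matrix.mulVec, dotProduct, Fin.sum_univ_three]
    fin_cases i <;> simp [IRRB_g, mul_comm]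
  have h0 : IRRB_D c v (0 : Fin 3 → F) = 0 := by simp [IRRB_D]
  have h5 : a 0 • r = 0 + a 0 • r := (zero_add _).symm
  rw [hw2, IRRB_D_add, IRRB_D_add, h5, IRRB_D_add, h0, h1, h2, h3]
  ring

theorem IRRB_main [Finite F] {c : Fin 10 → F} {r0 p q : Fin 3 → F}
    (hdet : (IRRB_g r0 p q).det ≠ 0)
    (hp : IRRB_cub c (p 0) (p 1) (p 2) = 0) (hpq : IRRB_D c p q ≠ 0)
    (hq : IRRB_cub c (q 0) (q 1) (q 2) = 0) (hns : ¬ ∀ w, IRRB_D c q w = 0) :
    ∃ (g : Matrix (Fin 3) (Fin 3) F) (X : Fin 3 → Matrix (Fin 3) (Fin 3) F), IsUnit g.det ∧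
      (∑ i, (MvPolynomial.X i : MvPolynomial (Fin 3) F) •
        (X i).map (MvPolynomial.C : F →+* MvPolynomial (Fin 3) F)).det =
        MvPolynomial.aeval (fun i => ∑ j, MvPolynomial.C (g i j) * MvPolynomial.X j)
          (IRRB_P c) ∧
      ∀ v : Fin 3 → F, v ≠ 0 → ∀ a b : Fin 3 → F, ∑ i, v i • X i ≠ Matrix.vecMulVec a b := by
  set r : Fin 3 → F := r0 + (-(IRRB_D c p r0 / IRRB_D c p q)) • q with hr
  have hrp : IRRB_D c p r = 0 := by
    rw [hr, IRRB_D_add]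
    field_simp
    ring
  have hdet' : (IRRB_g r p q).det ≠ 0 := by
    have : (IRRB_g r p q).det = (IRRB_g r0 p q).det := by
      rw [IRRB_det, IRRB_det, hr]
      simp only [Pi.add_apply, Pi.smul_apply, smul_eq_mul]
      ring
    rw [this]
    exact hdet
  have hqq : IRRB_D c q q = 0 := by
    rw [IRRB_D_self, hq, mul_zero]
  have h58 : ¬ (IRRB_D c q r = 0 ∧ IRRB_D c q p = 0) := by
    rintro ⟨h1, h2⟩
    exact hns (IRRB_D_zero hdet' h1 h2 hqq)
  generalize hc0 : IRRB_cub c (r 0) (r 1) (r 2) = c0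
  generalize hc1 : IRRB_D c r p = c1
  generalize hc2 : IRRB_D c r q = c2
  generalize hc4 : IRRB_T c r p q = c4
  generalize hc5 : IRRB_D c q r = c5 at h58
  generalize hc7 : IRRB_D c p q = c7 at hpq
  generalize hc8 : IRRB_D c q p = c8 at h58
  refine ⟨IRRB_g r p q, ![!![0, 0, c0; -1, 0, 0; 0, -1, 0], !![0, 0, c1; 0, 1, c4; 0, 0, c7],
    !![1, 0, c2; 0, 0, c5; 0, 0, c8]], isUnit_iff_ne_zero.2 hdet', ?_, ?_⟩
  · unfold IRRB_P
    rw [IRRB_change, hc0, hc1, hc2, hc4, hc5, hc7, hc8, hrp, hp, hq]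
    unfold IRRB_cub
    simp only [Matrix.cons_val, map_zero, zero_mul, add_zero]
    rw [Matrix.det_fin_three, Fin.sum_univ_three]
    simp
    ring
  · intro v hv a b h
    rw [Fin.sum_univ_three] at h
    have e : ∀ i j, (v 0 • !![0, 0, c0; -1, 0, 0; 0, -1, 0] + v 1 • !![0, 0, c1; 0, 1, c4; 0, 0, c7] +
        v 2 • !![1, 0, c2; 0, 0, c5; 0, 0, c8] : Matrix (Fin 3) (Fin 3) F) i j = a i * b j := by
      intro i j
      exact congrFun (congrFun h i) j
    have minor : ∀ i j k l, (v 0 • !![0, 0, c0; -1, 0, 0; 0, -1, 0] +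
        v 1 • !![0, 0, c1; 0, 1, c4; 0, 0, c7] +
        v 2 • !![1, 0, c2; 0, 0, c5; 0, 0, c8] : Matrix (Fin 3) (Fin 3) F) i j *
        (v 0 • !![0, 0, c0; -1, 0, 0; 0, -1, 0] + v 1 • !![0, 0, c1; 0, 1, c4; 0, 0, c7] +
        v 2 • !![1, 0, c2; 0, 0, c5; 0, 0, c8] : Matrix (Fin 3) (Fin 3) F) k l =
        (v 0 • !![0, 0, c0; -1, 0, 0; 0, -1, 0] + v 1 • !![0, 0, c1; 0, 1, c4; 0, 0, c7] +
        v 2 • !![1, 0, c2; 0, 0, c5; 0, 0, c8] : Matrix (Fin 3) (Fin 3) F) i l *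
        (v 0 • !![0, 0, c0; -1, 0, 0; 0, -1, 0] + v 1 • !![0, 0, c1; 0, 1, c4; 0, 0, c7] +
        v 2 • !![1, 0, c2; 0, 0, c5; 0, 0, c8] : Matrix (Fin 3) (Fin 3) F) k j := by
      intro i j k l
      rw [e, e, e, e]
      ring
    have m1 := minor 1 0 2 1
    have m2 := minor 0 0 1 1
    have m3 := minor 0 0 1 2
    have m4 := minor 0 0 2 2
    have m5 := minor 1 1 2 2
    simp at m1
    rw [m1] at m2 m3 m4 m5
    simp at m2 m3 m4 m5
    rcases m2 with hz | hy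
    · rw [hz] at m5
      by_cases hy : v 1 = 0
      · apply hv
        funext i
        fin_cases i
        · exact m1
        · exact hy
        · exact hz
      · rcases m5 with h5 | h5
        · exact hy h5
        · rw [zero_mul, add_zero] at h5
          exact (mul_ne_zero hy hpq) h5
    · rw [hy] at m3 m4
      by_cases hz : v 2 = 0
      · apply hv
        funext i
        fin_cases i
        · exact m1
        · exact hy
        · exact hz
      · apply h58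
        refine ⟨?_, ?_⟩
        · rcases m3 with h5 | h5
          · exact absurd h5 hz
          · rw [zero_mul, zero_add] at h5
            exact (mul_eq_zero.1 h5).resolve_left hz
        · rcases m4 with h5 | h5
          · exact absurd h5 hz
          · rw [zero_mul, zero_add] at h5
            exact (mul_eq_zero.1 h5).resolve_left hz

/-- **IRRB** -/
theorem det_rep [Finite F] {C : MvPolynomial (Fin 3) F} (hC : Irreducible C)
    (hhom : C.IsHomogeneous 3) (h3 : 2 * (Nat.card F - 1) < zeros C) :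
    ∃ (g : Matrix (Fin 3) (Fin 3) F) (X : Fin 3 → Matrix (Fin 3) (Fin 3) F), IsUnit g.det ∧
      (∑ i, (MvPolynomial.X i : MvPolynomial (Fin 3) F) •
        (X i).map (MvPolynomial.C : F →+* MvPolynomial (Fin 3) F)).det =
        MvPolynomial.aeval (fun i => ∑ j, MvPolynomial.C (g i j) * MvPolynomial.X j) C ∧
      ∀ v : Fin 3 → F, v ≠ 0 → ∀ a b : Fin 3 → F, ∑ i, v i • X i ≠ Matrix.vecMulVec a b := by
  obtain ⟨c, hc⟩ := IRRB_exp hhom
  have hcP : C = IRRB_P c := hc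
  subst hcP
  set A : Set (Fin 3 → F) := {v | v ≠ 0 ∧ IRRB_cub c (v 0) (v 1) (v 2) = 0 ∧
    ∀ w, IRRB_D c v w = 0} with hA
  set B : Set (Fin 3 → F) := {v | v ≠ 0 ∧ IRRB_cub c (v 0) (v 1) (v 2) = 0 ∧
    ¬ ∀ w, IRRB_D c v w = 0} with hB
  have hAB : zeros (IRRB_P c) ≤ A.ncard + B.ncard := by
    have h1 : zeros (IRRB_P c) = (A ∪ B).ncard := by
      unfold zeros
      rw [← Nat.card_coe_set_eq]
      apply Nat.card_congr
      apply Equiv.subtypeEquivRight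
      intro v
      unfold IRRB_P
      rw [IRRB_eval]
      rw [hA, hB]
      constructor
      · rintro ⟨h1, h2⟩
        by_cases h4 : ∀ w, IRRB_D c v w = 0
        · exact Or.inl ⟨h1, h2, h4⟩
        · exact Or.inr ⟨h1, h2, h4⟩
      · rintro (⟨h1, h2, -⟩ | ⟨h1, h2, -⟩)
        · exact ⟨h1, h2⟩
        · exact ⟨h1, h2⟩
    rw [h1]
    exact Set.ncard_union_le A B
  have hAc : A.ncard ≤ Nat.card F - 1 := by
    apply IRRB_card (fun v hv => hv.1)
    intro p hp q hq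
    by_contra hcon
    push Not at hcon
    obtain ⟨r, hr⟩ := IRRB_ext hp.1 hcon
    exact IRRB_line hC hhom hr hp.2.1 (hp.2.2 q) (hq.2.2 p) hq.2.1
  have hBc : ¬ ∀ p ∈ B, ∀ q ∈ B, ∃ t : F, q = t • p := by
    intro h
    have := IRRB_card (fun v hv => hv.1) h
    omega
  push Not at hBc
  obtain ⟨p, hp, q, hq, hpq⟩ := hBc
  obtain ⟨r, hr⟩ := IRRB_ext hp.1 hpq
  by_cases h1 : IRRB_D c p q = 0
  · by_cases h2 : IRRB_D c q p = 0
    · exact absurd hq.2.1 (fun h4 => IRRB_line hC hhom hr hp.2.1 h1 h2 h4)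
    · refine IRRB_main (r0 := r) (p := q) (q := p) ?_ hq.2.1 h2 hp.2.1 hp.2.2
      intro h4
      apply hr
      rw [IRRB_det] at h4 ⊢
      linear_combination -h4
  · exact IRRB_main hr hp.2.1 h1 hq.2.1 hq.2.2

end Pool.Agent.Helper74.CW
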