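import Pool.Agent.Helper70.CW.REaux
import Pool.Agent.Helper10.CW.CONC
import Pool.Agent.Helper82.CW.SYM

/-! The values `q + 1`, `2 q`, `2 q + 1`, `2 q + 2` are realized (module REQ of MP_526055_co). -/

set_option autoImplicit false

namespace Pool.Agent.Helper74.CW

open Module Polynomial

variable {F K : Type*} [Field F] [Field K] [Algebra F K]

theorem REQ_kernel (hB : Big F K) {a : K} (ha : a ∉ Set.range (algebraMap F K))
    {R : Matrix (Fin 3) (Fin 3) F} (hR : R ∈ NN F ![1, a, a ^ 2] ![1, a, a ^ 4]) :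
    R 0 0 = 0 ∧ R 1 0 = - R 0 1 ∧ R 2 0 = - R 1 1 ∧ R 2 1 = 0 ∧ R 0 2 = 0 ∧ R 1 2 = 0 ∧
      R 2 2 = 0 := by
  have h := RE_mem hR
  have h7 := RE_seven hB ha ![R 0 0, R 1 0 + R 0 1, R 2 0 + R 1 1, R 2 1, R 0 2, R 1 2, R 2 2] (by
      simp only [Matrix.cons_val, map_add] at h ⊢
      linear_combination h)
  have e0 := h7 0
  have e1 := h7 1
  have e2 := h7 2
  have e3 := h7 3
  have e4 := h7 4
  have e5 := h7 5
  have e6 := h7 6
  simp only [Matrix.cons_val] at e0 e1 e2 e3 e4 e5 e6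
  exact ⟨e0, by linear_combination e1, by linear_combination e2, e3, e4, e5, e6⟩

theorem real_q1 [Finite F] [FiniteDimensional F K] (hB : Big F K) {a : K}
    (ha : a ∉ Set.range (algebraMap F K)) :
    Real33 F K ((Nat.card F - 1) * (Nat.card F + 1)) := by
  set s : Fin 3 → K := ![1, a, a ^ 4] with hs
  have hzero : ∀ R ∈ NN F ![1, a, a ^ 2] s, R 0 1 = 0 → R 1 1 = 0 → R = 0 := by
    intro R hR h01 h11
    obtain ⟨h1, h2, h3, h4, h5, h6, h7⟩ := REQ_kernel hB ha hR
    rw [h01] at h2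
    rw [h11] at h3
    ext i j
    fin_cases i <;> fin_cases j <;> simp [h1, h2, h3, h4, h5, h6, h7, h01, h11]
  have hs_ind : LinearIndependent F s := by
    refine RE_indep_right (t := ![1, a, a ^ 2]) 2 (fun R hR h0 => ?_)
    exact hzero R hR (h0 0 1 (by decide)) (h0 1 1 (by decide))
  have ht_ind : LinearIndependent F ![1, a, a ^ 2] := by
    refine RE_indep_left (s := s) 0 (fun R hR h0 => ?_)
    exact hzero R hR (h0 0 1 (by decide)) (h0 1 1 (by decide))
  have hq : 1 ≤ Nat.card F := Nat.one_le_iff_ne_zero.2 Nat.card_pos.ne'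
  have hcount : sing (NN F ![1, a, a ^ 2] s) = (Nat.card F - 1) * (Nat.card F + 1) := by
    have e : {X : Matrix (Fin 3) (Fin 3) F // X ∈ NN F ![1, a, a ^ 2] s ∧ X ≠ 0 ∧ X.det = 0} ≃
        {p : F × F // p ≠ 0} :=
      { toFun := fun X => ⟨(X.1 0 1, X.1 1 1), by
          intro h
          apply X.2.2.1
          rw [Prod.mk_eq_zero] at h
          exact hzero X.1 X.2.1 h.1 h.2⟩
        invFun := fun p => ⟨!![0, p.1.1, 0; -p.1.1, p.1.2, 0; -p.1.2, 0, 0], by
          rw [RE_mem_iff]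
          simp [hs]
          ring, by
          intro h
          apply p.2
          have h1 := congrFun (congrFun h 0) 1
          have h2 := congrFun (congrFun h 1) 1
          simp at h1 h2
          exact Prod.ext h1 h2, by
          simp [Matrix.det_fin_three]⟩
        left_inv := by
          rintro ⟨X, hX, hne, hdet⟩
          obtain ⟨h1, h2, h3, h4, h5, h6, h7⟩ := REQ_kernel hB ha hX
          apply Subtype.ext
          ext i j
          fin_cases i <;> fin_cases j <;> simp [h1, h2, h3, h4, h5, h6, h7]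
        right_inv := by
          rintro ⟨⟨x, y⟩, hp⟩
          simp }
    show Nat.card {X : Matrix (Fin 3) (Fin 3) F // X ∈ NN F ![1, a, a ^ 2] s ∧ X ≠ 0 ∧
      X.det = 0} = _
    rw [Nat.card_congr e]
    have hfin : Fintype F := Fintype.ofFinite F
    classical
    rw [Nat.card_eq_fintype_card, Fintype.card_subtype_compl, Fintype.card_subtype_eq,
      Fintype.card_prod, ← Nat.card_eq_fintype_card]
    obtain ⟨k, hk⟩ := Nat.exists_eq_add_of_le hq
    rw [hk]
    have h1 : 1 + k - 1 = k := by omega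
    rw [h1]
    have h2 : (1 + k) * (1 + k) = k * (1 + k + 1) + 1 := by ring
    rw [h2]
    rfl
  refine RE_real ht_ind hs_ind hcount ?_
  obtain ⟨k, hk⟩ := Nat.exists_eq_add_of_le hq
  rw [hk]
  have h1 : 1 + k - 1 = k := by omega
  rw [h1]
  nlinarith

theorem REQ_fin {x y z : K} (h : LinearIndependent F ![x, y, z]) :
    finrank F ↥(Submodule.span F {x, y, z}) = 3 := by
  have h1 : ({x, y, z} : Set K) = Set.range ![x, y, z] := by
    ext w
    simp [Matrix.range_cons, Matrix.range_empty, or_comm, or_left_comm]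
  rw [h1, finrank_span_eq_card h]
  simp

theorem REQ_real [Finite F] [FiniteDimensional F K] (hB : Big F K) {a : K}
    (ha : a ∉ Set.range (algebraMap F K)) {f g : F[X]} (hf : f.natDegree ≤ 3)
    (hg : g.natDegree ≤ 2) (hg0 : g ≠ 0) (hco : IsCoprime f g)
    (hinf : f.coeff 3 ≠ 0 ∨ g.coeff 2 ≠ 0) {m c e : ℕ} (hc : Nat.card {c : F // g.eval c ≠ 0} = c)
    (he : (g.coeff 2 = 0 ∧ e = 0) ∨ (g.coeff 2 ≠ 0 ∧ e = 1)) (hm : m = Nat.card F + 1 + c + e) :
    Real33 F K ((Nat.card F - 1) * m) := by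
  obtain ⟨h1, h2, h3⟩ := conn_count hB ha hf hg hg0 hco hinf
  refine ⟨_, _, REQ_fin h1, hB.con_finrank ⟨1, a, one_ne_zero, ha, (sym_sc_one _).symm⟩, h2, ?_⟩
  rw [h3, hc, hm]
  rcases he with ⟨h4, rfl⟩ | ⟨h4, rfl⟩
  · rw [if_pos h4]
  · rw [if_neg h4]

theorem real_2q [Finite F] [FiniteDimensional F K] (hB : Big F K) {a : K}
    (ha : a ∉ Set.range (algebraMap F K)) : Real33 F K ((Nat.card F - 1) * (2 * Nat.card F)) := by
  have hq : 1 ≤ Nat.card F := Nat.one_le_iff_ne_zero.2 Nat.card_pos.ne'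
  refine REQ_real hB ha (f := 1 + X ^ 3) (g := X) (c := Nat.card F - 1) (e := 0) ?_ ?_ X_ne_zero
    ?_ ?_ ?_ ?_ ?_
  · compute_degree
  · exact natDegree_X_le.trans (by norm_num)
  · refine ⟨1, -X ^ 2, ?_⟩
    ring
  · left
    simp [coeff_one]
  · have hfin : Fintype F := Fintype.ofFinite F
    classical
    simp only [eval_X]
    rw [Nat.card_eq_fintype_card, Fintype.card_subtype_compl, Fintype.card_subtype_eq,
      ← Nat.card_eq_fintype_card]
  · left
    simp [coeff_X]
  · omega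

theorem REQ_card_all [Finite F] {g : F[X]} (h : ∀ c : F, g.eval c ≠ 0) :
    Nat.card {c : F // g.eval c ≠ 0} = Nat.card F :=
  Nat.card_congr (Equiv.subtypeUnivEquiv h)

theorem real_2q1 [Finite F] [FiniteDimensional F K] (hB : Big F K) {a : K}
    (ha : a ∉ Set.range (algebraMap F K)) :
    Real33 F K ((Nat.card F - 1) * (2 * Nat.card F + 1)) := by
  refine REQ_real hB ha (f := X ^ 3) (g := 1) (c := Nat.card F) (e := 0) ?_ ?_ one_ne_zero
    isCoprime_one_right ?_ (REQ_card_all fun c => ?_) ?_ ?_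
  · compute_degree
  · rw [natDegree_one]
    norm_num
  · left
    simp
  · simp
  · left
    simp [coeff_one]
  · omega

theorem REQ_exists_quad [Finite F] : ∃ c0 c1 : F, ∀ x : F, x ^ 2 + c1 * x + c0 ≠ 0 := by
  by_contra hcon
  push Not at hcon
  let φ : F × F → F × F := fun p => (-(p.1 + p.2), p.1 * p.2)
  have hsurj : Function.Surjective φ := by
    rintro ⟨d1, d0⟩
    obtain ⟨x, hx⟩ := hcon d0 d1
    refine ⟨(x, -d1 - x), ?_⟩
    simp only [φ, Prod.mk.injEq]
    refine ⟨by ring, ?_⟩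
    linear_combination -hx
  have hinj : Function.Injective φ := Finite.injective_iff_surjective.2 hsurj
  have h1 : φ (0, 1) = φ (1, 0) := by
    simp [φ]
  have h2 := hinj h1
  simp at h2

theorem real_2q2 [Finite F] [FiniteDimensional F K] (hB : Big F K) {a : K}
    (ha : a ∉ Set.range (algebraMap F K)) :
    Real33 F K ((Nat.card F - 1) * (2 * Nat.card F + 2)) := by
  obtain ⟨c0, c1, hc⟩ := REQ_exists_quad (F := F)
  have hg2 : (X ^ 2 + C c1 * X + C c0 : F[X]).coeff 2 = 1 := by
    simp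
  refine REQ_real hB ha (f := 1) (g := X ^ 2 + C c1 * X + C c0) (c := Nat.card F) (e := 1) ?_ ?_ ?_
    isCoprime_one_left ?_ (REQ_card_all fun c => ?_) ?_ ?_
  · rw [natDegree_one]
    norm_num
  · compute_degree
  · intro h
    rw [h] at hg2
    simp at hg2
  · right
    rw [hg2]
    exact one_ne_zero
  · simpa using hc c
  · right
    rw [hg2]
    exact ⟨one_ne_zero, rfl⟩
  · omega

end Pool.Agent.Helper74.CW
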