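import Pool.Agent.Helper70.CW.REaux
import Pool.Agent.Helper30.CW.SELF
import Pool.Agent.Helper95.CW.QUAD
import Pool.Agent.Helper45.CW.FOUR
import Pool.Agent.Helper62.CW.BND

/-!
# Realization of the number of points of a cubic with a determinantal representation
(module IRRA of MP_526055_co)
-/

set_option autoImplicit false

namespace Pool.Agent.Helper74.CW

open Module Polynomial

variable {F K : Type*} [Field F] [Field K] [Algebra F K]

/-! ### the generic matrix -/

/-- the generic element of the net spanned by three matrices -/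
noncomputable def IRRA_M (X : Fin 3 → Matrix (Fin 3) (Fin 3) F) :
    Matrix (Fin 3) (Fin 3) (MvPolynomial (Fin 3) F) :=
  ∑ i, (MvPolynomial.X i : MvPolynomial (Fin 3) F) •
    (X i).map (MvPolynomial.C : F →+* MvPolynomial (Fin 3) F)

theorem IRRA_M_apply (X : Fin 3 → Matrix (Fin 3) (Fin 3) F) (j k : Fin 3) :
    IRRA_M X j k = ∑ i, MvPolynomial.X i * MvPolynomial.C (X i j k) := by
  unfold IRRA_M
  rw [Matrix.sum_apply]
  rfl

theorem IRRA_lin (c : Fin 3 → F) :
    (∑ i, MvPolynomial.X i * MvPolynomial.C (c i) : MvPolynomial (Fin 3) F).IsHomogeneous 1 := by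
  apply MvPolynomial.IsHomogeneous.sum
  intro i _
  have := (MvPolynomial.isHomogeneous_X F i).mul (MvPolynomial.isHomogeneous_C (Fin 3) (c i))
  simpa using this

theorem IRRA_mul (P Q : Matrix (Fin 3) (Fin 3) F) (X : Fin 3 → Matrix (Fin 3) (Fin 3) F) :
    IRRA_M (fun i => P * X i * Q) = P.map (MvPolynomial.C : F →+* MvPolynomial (Fin 3) F) *
      IRRA_M X * Q.map (MvPolynomial.C : F →+* MvPolynomial (Fin 3) F) := by
  unfold IRRA_M
  rw [Finset.mul_sum, Finset.sum_mul]
  refine Finset.sum_congr rfl fun i _ => ?_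
  rw [Matrix.map_mul, Matrix.map_mul, Matrix.mul_smul, Matrix.smul_mul]

theorem IRRA_det_mul (P Q : Matrix (Fin 3) (Fin 3) F) (X : Fin 3 → Matrix (Fin 3) (Fin 3) F) :
    (IRRA_M (fun i => P * X i * Q)).det = MvPolynomial.C (P.det * Q.det) * (IRRA_M X).det := by
  have h : ∀ P : Matrix (Fin 3) (Fin 3) F,
      (P.map (MvPolynomial.C : F →+* MvPolynomial (Fin 3) F)).det = MvPolynomial.C P.det := by
    intro P
    exact ((MvPolynomial.C : F →+* MvPolynomial (Fin 3) F).map_det P).symm
  rw [IRRA_mul, Matrix.det_mul, Matrix.det_mul, h, h, map_mul]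
  ring

theorem IRRA_eval (X : Fin 3 → Matrix (Fin 3) (Fin 3) F) (v : Fin 3 → F) :
    MvPolynomial.eval v (IRRA_M X).det = (∑ i, v i • X i).det := by
  rw [RingHom.map_det]
  congr 1
  ext j k
  rw [RingHom.mapMatrix_apply, Matrix.map_apply, IRRA_M_apply, Matrix.sum_apply]
  simp

theorem IRRA_aeval (X : Fin 3 → Matrix (Fin 3) (Fin 3) F) (u : Fin 3 → K) :
    MvPolynomial.aeval u (IRRA_M X).det =
      (Matrix.of (fun j k => ∑ i, algebraMap F K (X i j k) * u i)).det := by
  rw [AlgHom.map_det]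
  congr 1
  ext j k
  rw [AlgHom.mapMatrix_apply, Matrix.map_apply, IRRA_M_apply]
  simp [mul_comm]

/-- good nets of matrices -/
structure IRRA_G (X : Fin 3 → Matrix (Fin 3) (Fin 3) F) : Prop where
  irr : Irreducible (IRRA_M X).det
  hom : (IRRA_M X).det.IsHomogeneous 3
  rk : ∀ v : Fin 3 → F, v ≠ 0 → ∀ a b : Fin 3 → F, ∑ i, v i • X i ≠ Matrix.vecMulVec a b

theorem IRRA_G.mul {X : Fin 3 → Matrix (Fin 3) (Fin 3) F} (h : IRRA_G X)
    {P Q : Matrix (Fin 3) (Fin 3) F} (hP : IsUnit P.det) (hQ : IsUnit Q.det) :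
    IRRA_G (fun i => P * X i * Q) := by
  refine ⟨?_, ?_, ?_⟩
  · rw [IRRA_det_mul]
    exact (irreducible_isUnit_mul ((hP.mul hQ).map MvPolynomial.C)).2 h.irr
  · rw [IRRA_det_mul]
    exact h.hom.C_mul _
  · intro v hv a b hab
    apply h.rk v hv (P⁻¹.mulVec a) (Matrix.vecMul b Q⁻¹)
    have h1 : ∑ i, v i • (P * X i * Q) = P * (∑ i, v i • X i) * Q := by
      rw [Finset.mul_sum, Finset.sum_mul]
      refine Finset.sum_congr rfl fun i _ => ?_
      rw [Matrix.mul_smul, Matrix.smul_mul]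
    rw [h1] at hab
    have h2 : ∑ i, v i • X i = P⁻¹ * (P * (∑ i, v i • X i) * Q) * Q⁻¹ := by
      rw [Matrix.mul_assoc P, ← Matrix.mul_assoc P⁻¹, Matrix.nonsing_inv_mul _ hP, Matrix.one_mul,
        Matrix.mul_assoc, Matrix.mul_nonsing_inv _ hQ, Matrix.mul_one]
    rw [h2, hab, Matrix.mul_vecMulVec, Matrix.vecMulVec_mul]

theorem IRRA_G.nolin {X : Fin 3 → Matrix (Fin 3) (Fin 3) F} (h : IRRA_G X)
    {L Q : MvPolynomial (Fin 3) F} (hL : L.IsHomogeneous 1) (hLQ : (IRRA_M X).det = L * Q) :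
    False := by
  have hne : L * Q ≠ 0 := by
    rw [← hLQ]
    exact h.irr.ne_zero
  have hL0 : L ≠ 0 := left_ne_zero_of_mul hne
  have hQ0 : Q ≠ 0 := right_ne_zero_of_mul hne
  have hLd : L.totalDegree = 1 := hL.totalDegree hL0
  rcases h.irr.isUnit_or_isUnit hLQ with h1 | h1
  · have h2 := BND_unit h1
    omega
  · have h2 := BND_unit h1
    have h3 : (IRRA_M X).det.totalDegree = 3 := h.hom.totalDegree h.irr.ne_zero
    rw [hLQ, MvPolynomial.totalDegree_mul_of_isDomain hL0 hQ0, h2, hLd] at h3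
    omega

/-! ### two proportional families of linear forms -/

theorem IRRA_cm (hB : Big F K) {w : Fin 3 → K} (hw : LinearIndependent F w)
    {N : Matrix (Fin 3) (Fin 3) F} (hN : IsUnit N.det) {ρ : K}
    (h : ∀ j, ρ * ∑ i, N j i • w i ∈ Submodule.span F (Set.range w)) :
    ρ ∈ Set.range (algebraMap F K) := by
  have h3 : finrank F ↥(Submodule.span F (Set.range w)) = 3 := by
    rw [finrank_span_eq_card hw]
    simp
  apply self_colon hB h3
  have h1 : ∀ i, ρ * w i ∈ Submodule.span F (Set.range w) := by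
    intro i
    have h2 : w i = ∑ j, N⁻¹ i j • ∑ k, N j k • w k := by
      have h4 : ∀ k, ∑ j, N⁻¹ i j • N j k • w k = (1 : Matrix (Fin 3) (Fin 3) F) i k • w k := by
        intro k
        rw [← Matrix.nonsing_inv_mul N hN, Matrix.mul_apply, Finset.sum_smul]
        refine Finset.sum_congr rfl fun j _ => ?_
        rw [smul_smul]
      simp only [Finset.smul_sum]
      rw [Finset.sum_comm, Finset.sum_congr rfl fun k _ => h4 k, Finset.sum_eq_single i]
      · rw [Matrix.one_apply_eq, one_smul]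
      · intro k _ hk
        rw [Matrix.one_apply_ne (Ne.symm hk), zero_smul]
      · intro h
        exact absurd (Finset.mem_univ i) h
    rw [h2, Finset.mul_sum]
    refine Submodule.sum_mem _ fun j _ => ?_
    rw [mul_smul_comm]
    exact Submodule.smul_mem _ _ (h j)
  intro t ht
  induction ht using Submodule.span_induction with
  | mem x hx =>
    obtain ⟨i, rfl⟩ := hx
    exact h1 i
  | zero => rw [mul_zero]; exact Submodule.zero_mem _
  | add x y _ _ hx hy => rw [mul_add]; exact Submodule.add_mem _ hx hy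
  | smul a x _ hx => rw [mul_smul_comm]; exact Submodule.smul_mem _ _ hx

theorem IRRA_two (hB : Big F K) {w : Fin 3 → K} (hw : LinearIndependent F w)
    (N N' : Matrix (Fin 3) (Fin 3) F) {x y : K} (hxy : ¬ (x = 0 ∧ y = 0))
    (h : ∀ j, (∑ i, N j i • w i) * x + (∑ i, N' j i • w i) * y = 0) :
    (∃ a b : F, ¬ (a = 0 ∧ b = 0) ∧ a • N + b • N' = 0) ∨
      ∃ c : Fin 3 → F, c ≠ 0 ∧ Matrix.vecMul c N = 0 ∧ Matrix.vecMul c N' = 0 := by
  have hw' := Fintype.linearIndependent_iff.1 hw
  by_cases hy : y = 0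
  · left
    have hx : x ≠ 0 := fun hx => hxy ⟨hx, hy⟩
    refine ⟨1, 0, fun h => one_ne_zero h.1, ?_⟩
    rw [one_smul, zero_smul, add_zero]
    ext j i
    have h1 := h j
    rw [hy, mul_zero, add_zero] at h1
    exact hw' (fun i => N j i) ((mul_eq_zero.1 h1).resolve_right hx) i
  · by_cases hdet : N.det = 0
    · right
      obtain ⟨c, hc, hcN⟩ := Matrix.exists_vecMul_eq_zero_iff.2 hdet
      refine ⟨c, hc, hcN, ?_⟩
      have hs : ∀ N : Matrix (Fin 3) (Fin 3) F, ∑ j, c j • (∑ i, N j i • w i) =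
          ∑ i, Matrix.vecMul c N i • w i := by
        intro N
        simp only [Finset.smul_sum, Matrix.vecMul, dotProduct, Finset.sum_smul]
        rw [Finset.sum_comm]
        refine Finset.sum_congr rfl fun i _ => Finset.sum_congr rfl fun j _ => ?_
        rw [smul_smul]
      have h1 : (∑ j, c j • (∑ i, N j i • w i)) * x + (∑ j, c j • (∑ i, N' j i • w i)) * y = 0 := by
        rw [Finset.sum_mul, Finset.sum_mul, ← Finset.sum_add_distrib]
        apply Finset.sum_eq_zero
        intro j _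
        rw [smul_mul_assoc, smul_mul_assoc, ← smul_add, h j, smul_zero]
      rw [hs, hs, hcN] at h1
      simp only [Pi.zero_apply, zero_smul, Finset.sum_const_zero, zero_mul, zero_add] at h1
      funext i
      exact hw' _ ((mul_eq_zero.1 h1).resolve_right hy) i
    · left
      have h1 : x / y ∈ Set.range (algebraMap F K) := by
        apply IRRA_cm hB hw (isUnit_iff_ne_zero.2 hdet)
        intro j
        have h2 : x / y * ∑ i, N j i • w i = -∑ i, N' j i • w i := by
          have := h j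
          field_simp
          linear_combination this
        rw [h2]
        apply Submodule.neg_mem
        exact Submodule.sum_mem _ fun i _ => Submodule.smul_mem _ _
          (Submodule.subset_span ⟨i, rfl⟩)
      obtain ⟨a, ha⟩ := h1
      refine ⟨a, 1, fun h => one_ne_zero h.2, ?_⟩
      rw [one_smul]
      ext j i
      refine hw' (fun i => (a • N + N') j i) ?_ i
      have h3 : ∑ i, (a • N + N') j i • w i =
          algebraMap F K a * (∑ i, N j i • w i) + ∑ i, N' j i • w i := by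
        rw [Finset.mul_sum, ← Finset.sum_add_distrib]
        refine Finset.sum_congr rfl fun i _ => ?_
        rw [Matrix.add_apply, Matrix.smul_apply, add_smul, smul_eq_mul, mul_smul, Algebra.smul_def]
      rw [h3, ha]
      have := h j
      field_simp
      linear_combination this

/-- dependent vectors -/
theorem IRRA_dep {s : Fin 3 → K} (hs : ¬ LinearIndependent F s) :
    ∃ Q : Matrix (Fin 3) (Fin 3) F, IsUnit Q.det ∧ ∃ x y : K, ∀ j, s j =
      Q j 0 • x + Q j 1 • y := by
  rw [Fintype.linearIndependent_iff] at hs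
  push Not at hs
  obtain ⟨c, hc, k, hk⟩ := hs
  rw [Fin.sum_univ_three] at hc
  fin_cases k
  · have hk0 : c 0 ≠ 0 := hk
    refine ⟨!![-(c 1 / c 0), -(c 2 / c 0), 1; 1, 0, 0; 0, 1, 0], ?_, s 1, s 2, ?_⟩
    · rw [Matrix.det_fin_three]
      simp
    · intro j
      fin_cases j
      · have h1 : c 0 • s 0 = c 0 • ((-(c 1 / c 0)) • s 1 + (-(c 2 / c 0)) • s 2) := by
          rw [smul_add, smul_smul, smul_smul]
          have e1 : c 0 * -(c 1 / c 0) = -c 1 := by field_simp
          have e2 : c 0 * -(c 2 / c 0) = -c 2 := by field_simp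
          rw [e1, e2, neg_smul, neg_smul]
          linear_combination hc
        have h2 := smul_right_injective K hk0 h1
        simpa using h2
      · simp
      · simp
  · have hk0 : c 1 ≠ 0 := hk
    refine ⟨!![1, 0, 0; -(c 0 / c 1), -(c 2 / c 1), 1; 0, 1, 0], ?_, s 0, s 2, ?_⟩
    · rw [Matrix.det_fin_three]
      simp
    · intro j
      fin_cases j
      · simp
      · have h1 : c 1 • s 1 = c 1 • ((-(c 0 / c 1)) • s 0 + (-(c 2 / c 1)) • s 2) := by
          rw [smul_add, smul_smul, smul_smul]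
          have e1 : c 1 * -(c 0 / c 1) = -c 0 := by field_simp
          have e2 : c 1 * -(c 2 / c 1) = -c 2 := by field_simp
          rw [e1, e2, neg_smul, neg_smul]
          linear_combination hc
        have h2 := smul_right_injective K hk0 h1
        simpa using h2
      · simp
  · have hk0 : c 2 ≠ 0 := hk
    refine ⟨!![1, 0, 0; 0, 1, 0; -(c 0 / c 2), -(c 1 / c 2), 1], ?_, s 0, s 1, ?_⟩
    · rw [Matrix.det_fin_three]
      simp
    · intro j
      fin_cases j
      · simp
      · simp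
      · have h1 : c 2 • s 2 = c 2 • ((-(c 0 / c 2)) • s 0 + (-(c 1 / c 2)) • s 1) := by
          rw [smul_add, smul_smul, smul_smul]
          have e1 : c 2 * -(c 0 / c 2) = -c 0 := by field_simp
          have e2 : c 2 * -(c 1 / c 2) = -c 1 := by field_simp
          rw [e1, e2, neg_smul, neg_smul]
          linear_combination hc
        have h2 := smul_right_injective K hk0 h1
        simpa using h2

/-- the right kernel vector, in coordinates -/
theorem IRRA_right (hB : Big F K) {X : Fin 3 → Matrix (Fin 3) (Fin 3) F} (hX : IRRA_G X)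
    {u : Fin 3 → K} (hu : LinearIndependent F u) {x y : K}
    (h : ∀ j, (∑ i, X i j 0 • u i) * x + (∑ i, X i j 1 • u i) * y = 0) : x = 0 ∧ y = 0 := by
  by_contra hxy
  rcases IRRA_two hB hu (Matrix.of fun j i => X i j 0) (Matrix.of fun j i => X i j 1) hxy h with
    ⟨a, b, hab, h1⟩ | ⟨c, hc, h1, h2⟩
  · -- the first two columns are proportional
    have h2 : ∀ j, MvPolynomial.C a * IRRA_M X j 0 + MvPolynomial.C b * IRRA_M X j 1 = 0 := by
      intro j
      rw [IRRA_M_apply, IRRA_M_apply, Finset.mul_sum, Finset.mul_sum, ← Finset.sum_add_distrib]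
      apply Finset.sum_eq_zero
      intro i _
      have h3 := congrFun (congrFun h1 j) i
      simp only [Matrix.add_apply, Matrix.smul_apply, Matrix.of_apply, smul_eq_mul,
        Matrix.zero_apply] at h3
      have h4 := congrArg (MvPolynomial.C : F → MvPolynomial (Fin 3) F) h3
      rw [map_add, map_mul, map_mul, map_zero] at h4
      linear_combination MvPolynomial.X i * h4
    apply hX.irr.ne_zero
    have e0 := h2 0
    have e1 := h2 1
    have e2 := h2 2
    rw [Matrix.det_fin_three]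
    by_cases ha : a = 0
    · have hb : b ≠ 0 := fun hb => hab ⟨ha, hb⟩
      have hb' : (MvPolynomial.C b : MvPolynomial (Fin 3) F) ≠ 0 :=
        fun h => hb (by simpa using h)
      rw [ha, map_zero, zero_mul, zero_add] at e0 e1 e2
      rw [(mul_eq_zero.1 e0).resolve_left hb', (mul_eq_zero.1 e1).resolve_left hb',
        (mul_eq_zero.1 e2).resolve_left hb']
      ring
    · have ha' : (MvPolynomial.C a : MvPolynomial (Fin 3) F) ≠ 0 :=
        fun h => ha (by simpa using h)
      refine (mul_eq_zero.1 ?_).resolve_left ha'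
      linear_combination (IRRA_M X 1 1 * IRRA_M X 2 2 - IRRA_M X 1 2 * IRRA_M X 2 1) * e0 -
        (IRRA_M X 0 1 * IRRA_M X 2 2 - IRRA_M X 0 2 * IRRA_M X 2 1) * e1 +
        (IRRA_M X 0 1 * IRRA_M X 1 2 - IRRA_M X 0 2 * IRRA_M X 1 1) * e2
  · -- a combination of the rows has two zeros
    have h3 : ∀ (k : Fin 3), (∀ i, ∑ j, c j * X i j k = 0) →
        MvPolynomial.C (c 0) * IRRA_M X 0 k + MvPolynomial.C (c 1) * IRRA_M X 1 k +
          MvPolynomial.C (c 2) * IRRA_M X 2 k = 0 := by
      intro k hk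
      rw [IRRA_M_apply, IRRA_M_apply, IRRA_M_apply, Finset.mul_sum, Finset.mul_sum,
        Finset.mul_sum, ← Finset.sum_add_distrib, ← Finset.sum_add_distrib]
      apply Finset.sum_eq_zero
      intro i _
      have h4 := congrArg (MvPolynomial.C : F → MvPolynomial (Fin 3) F) (hk i)
      rw [Fin.sum_univ_three, map_add, map_add, map_mul, map_mul, map_mul, map_zero] at h4
      linear_combination MvPolynomial.X i * h4
    have e0 := h3 0 (fun i => congrFun h1 i)
    have e1 := h3 1 (fun i => congrFun h2 i)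
    have hL : (MvPolynomial.C (c 0) * IRRA_M X 0 2 + MvPolynomial.C (c 1) * IRRA_M X 1 2 +
        MvPolynomial.C (c 2) * IRRA_M X 2 2).IsHomogeneous 1 := by
      have := IRRA_lin (fun i => c 0 * X i 0 2 + c 1 * X i 1 2 + c 2 * X i 2 2)
      convert this using 1
      rw [IRRA_M_apply, IRRA_M_apply, IRRA_M_apply, Finset.mul_sum, Finset.mul_sum,
        Finset.mul_sum, ← Finset.sum_add_distrib, ← Finset.sum_add_distrib]
      refine Finset.sum_congr rfl fun i _ => ?_
      simp only [map_add, map_mul]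
      ring
    obtain ⟨k, hk⟩ := Function.ne_iff.1 hc
    have hinv : (MvPolynomial.C (c k)⁻¹ : MvPolynomial (Fin 3) F) * MvPolynomial.C (c k) = 1 := by
      rw [← map_mul, inv_mul_cancel₀ hk, map_one]
    fin_cases k
    · refine hX.nolin hL (Q := MvPolynomial.C (c 0)⁻¹ *
        (IRRA_M X 1 0 * IRRA_M X 2 1 - IRRA_M X 1 1 * IRRA_M X 2 0)) ?_
      rw [Matrix.det_fin_three]
      simp only [Fin.zero_eta, Fin.isValue] at hinv
      linear_combination (-(IRRA_M X 0 0 * IRRA_M X 1 1 * IRRA_M X 2 2 -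
        IRRA_M X 0 0 * IRRA_M X 1 2 * IRRA_M X 2 1 - IRRA_M X 0 1 * IRRA_M X 1 0 * IRRA_M X 2 2 +
        IRRA_M X 0 1 * IRRA_M X 1 2 * IRRA_M X 2 0 + IRRA_M X 0 2 * IRRA_M X 1 0 * IRRA_M X 2 1 -
        IRRA_M X 0 2 * IRRA_M X 1 1 * IRRA_M X 2 0)) * hinv +
        MvPolynomial.C (c 0)⁻¹ * ((IRRA_M X 1 1 * IRRA_M X 2 2 - IRRA_M X 1 2 * IRRA_M X 2 1) * e0 -
        (IRRA_M X 1 0 * IRRA_M X 2 2 - IRRA_M X 1 2 * IRRA_M X 2 0) * e1)
    · refine hX.nolin hL (Q := -MvPolynomial.C (c 1)⁻¹ *
        (IRRA_M X 0 0 * IRRA_M X 2 1 - IRRA_M X 0 1 * IRRA_M X 2 0)) ?_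
      rw [Matrix.det_fin_three]
      simp only [Fin.mk_one, Fin.isValue] at hinv
      linear_combination (-(IRRA_M X 0 0 * IRRA_M X 1 1 * IRRA_M X 2 2 -
        IRRA_M X 0 0 * IRRA_M X 1 2 * IRRA_M X 2 1 - IRRA_M X 0 1 * IRRA_M X 1 0 * IRRA_M X 2 2 +
        IRRA_M X 0 1 * IRRA_M X 1 2 * IRRA_M X 2 0 + IRRA_M X 0 2 * IRRA_M X 1 0 * IRRA_M X 2 1 -
        IRRA_M X 0 2 * IRRA_M X 1 1 * IRRA_M X 2 0)) * hinv +
        MvPolynomial.C (c 1)⁻¹ * (-(IRRA_M X 0 1 * IRRA_M X 2 2 -
        IRRA_M X 0 2 * IRRA_M X 2 1) * e0 +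
        (IRRA_M X 0 0 * IRRA_M X 2 2 - IRRA_M X 0 2 * IRRA_M X 2 0) * e1)
    · refine hX.nolin hL (Q := MvPolynomial.C (c 2)⁻¹ *
        (IRRA_M X 0 0 * IRRA_M X 1 1 - IRRA_M X 0 1 * IRRA_M X 1 0)) ?_
      rw [Matrix.det_fin_three]
      simp only [Fin.reduceFinMk, Fin.isValue] at hinv
      linear_combination (-(IRRA_M X 0 0 * IRRA_M X 1 1 * IRRA_M X 2 2 -
        IRRA_M X 0 0 * IRRA_M X 1 2 * IRRA_M X 2 1 - IRRA_M X 0 1 * IRRA_M X 1 0 * IRRA_M X 2 2 +
        IRRA_M X 0 1 * IRRA_M X 1 2 * IRRA_M X 2 0 + IRRA_M X 0 2 * IRRA_M X 1 0 * IRRA_M X 2 1 -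
        IRRA_M X 0 2 * IRRA_M X 1 1 * IRRA_M X 2 0)) * hinv +
        MvPolynomial.C (c 2)⁻¹ * ((IRRA_M X 0 1 * IRRA_M X 1 2 -
        IRRA_M X 0 2 * IRRA_M X 1 1) * e0 -
        (IRRA_M X 0 0 * IRRA_M X 1 2 - IRRA_M X 0 2 * IRRA_M X 1 0) * e1)

/-- the left kernel vector, in coordinates -/
theorem IRRA_left (hB : Big F K) {X : Fin 3 → Matrix (Fin 3) (Fin 3) F} (hX : IRRA_G X)
    {s : Fin 3 → K} (hs : LinearIndependent F s) {x y : K}
    (h : ∀ i, (∑ k, X i 0 k • s k) * x + (∑ k, X i 1 k • s k) * y = 0) : x = 0 ∧ y = 0 := by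
  by_contra hxy
  rcases IRRA_two hB hs (Matrix.of fun i k => X i 0 k) (Matrix.of fun i k => X i 1 k) hxy h with
    ⟨a, b, hab, h1⟩ | ⟨c, hc, h1, h2⟩
  · have h2 : ∀ k, MvPolynomial.C a * IRRA_M X 0 k + MvPolynomial.C b * IRRA_M X 1 k = 0 := by
      intro k
      rw [IRRA_M_apply, IRRA_M_apply, Finset.mul_sum, Finset.mul_sum, ← Finset.sum_add_distrib]
      apply Finset.sum_eq_zero
      intro i _
      have h3 := congrFun (congrFun h1 i) k
      simp only [Matrix.add_apply, Matrix.smul_apply, Matrix.of_apply, smul_eq_mul,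
        Matrix.zero_apply] at h3
      have h4 := congrArg (MvPolynomial.C : F → MvPolynomial (Fin 3) F) h3
      rw [map_add, map_mul, map_mul, map_zero] at h4
      linear_combination MvPolynomial.X i * h4
    apply hX.irr.ne_zero
    have e0 := h2 0
    have e1 := h2 1
    have e2 := h2 2
    rw [Matrix.det_fin_three]
    by_cases ha : a = 0
    · have hb : b ≠ 0 := fun hb => hab ⟨ha, hb⟩
      have hb' : (MvPolynomial.C b : MvPolynomial (Fin 3) F) ≠ 0 :=
        fun h => hb (by simpa using h)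
      rw [ha, map_zero, zero_mul, zero_add] at e0 e1 e2
      rw [(mul_eq_zero.1 e0).resolve_left hb', (mul_eq_zero.1 e1).resolve_left hb',
        (mul_eq_zero.1 e2).resolve_left hb']
      ring
    · have ha' : (MvPolynomial.C a : MvPolynomial (Fin 3) F) ≠ 0 :=
        fun h => ha (by simpa using h)
      refine (mul_eq_zero.1 ?_).resolve_left ha'
      linear_combination (IRRA_M X 1 1 * IRRA_M X 2 2 - IRRA_M X 1 2 * IRRA_M X 2 1) * e0 -
        (IRRA_M X 1 0 * IRRA_M X 2 2 - IRRA_M X 1 2 * IRRA_M X 2 0) * e1 +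
        (IRRA_M X 1 0 * IRRA_M X 2 1 - IRRA_M X 1 1 * IRRA_M X 2 0) * e2
  · apply hX.rk c hc (Pi.single 2 1) (fun k => (∑ i, c i • X i) 2 k)
    have h3 : ∀ k, (∑ i, c i • X i) 0 k = 0 := by
      intro k
      rw [Matrix.sum_apply]
      exact congrFun h1 k
    have h4 : ∀ k, (∑ i, c i • X i) 1 k = 0 := by
      intro k
      rw [Matrix.sum_apply]
      exact congrFun h2 k
    ext j k
    rw [Matrix.vecMulVec_apply]
    fin_cases j
    · simpa using h3 k
    · simpa using h4 k
    · simp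

/-- alternating nets are singular -/
theorem IRRA_alt {X : Fin 3 → Matrix (Fin 3) (Fin 3) F}
    (h : ∀ i, (X i).transpose = -X i ∧ ∀ j, X i j j = 0) : (IRRA_M X).det = 0 := by
  have h1 : ∀ j, IRRA_M X j j = 0 := by
    intro j
    rw [IRRA_M_apply]
    apply Finset.sum_eq_zero
    intro i _
    rw [(h i).2 j, map_zero, mul_zero]
  have h2 : ∀ j k, IRRA_M X j k = -IRRA_M X k j := by
    intro j k
    rw [IRRA_M_apply, IRRA_M_apply, ← Finset.sum_neg_distrib]
    refine Finset.sum_congr rfl fun i _ => ?_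
    have h3 := congrFun (congrFun (h i).1 k) j
    rw [Matrix.transpose_apply, Matrix.neg_apply] at h3
    rw [h3, map_neg]
    ring
  rw [Matrix.det_fin_three, h1, h1, h1, h2 1 0, h2 2 0, h2 2 1]
  ring

/-- nets in the kernel of a conic type space have reducible determinants -/
theorem IRRA_conic (hB : Big F K) {a : K} (ha : a ∉ Set.range (algebraMap F K))
    {Z : Fin 3 → Matrix (Fin 3) (Fin 3) F} (hG : IRRA_G Z)
    (hZ : ∀ i, Z i ∈ NN F ![1, a, a ^ 2] ![1, a, a ^ 2]) : False := by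
  have hk : ∀ i, Z i 0 0 = 0 ∧ Z i 1 0 = - Z i 0 1 ∧ Z i 1 1 = - Z i 0 2 - Z i 2 0 ∧
      Z i 2 1 = - Z i 1 2 ∧ Z i 2 2 = 0 := by
    intro i
    have h := RE_mem (hZ i)
    have h7 := RE_seven hB ha ![Z i 0 0, Z i 0 1 + Z i 1 0, Z i 0 2 + Z i 1 1 + Z i 2 0,
      Z i 1 2 + Z i 2 1, Z i 2 2, 0, 0] (by
        simp only [Matrix.cons_val, map_add, map_zero] at h ⊢
        linear_combination h)
    have e0 := h7 0
    have e1 := h7 1
    have e2 := h7 2
    have e3 := h7 3
    have e4 := h7 4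
    simp only [Matrix.cons_val] at e0 e1 e2 e3 e4
    exact ⟨e0, by linear_combination e1, by linear_combination e2, by linear_combination e3, e4⟩
  have m00 : IRRA_M Z 0 0 = 0 := by
    rw [IRRA_M_apply]
    apply Finset.sum_eq_zero
    intro i _
    rw [(hk i).1, map_zero, mul_zero]
  have m22 : IRRA_M Z 2 2 = 0 := by
    rw [IRRA_M_apply]
    apply Finset.sum_eq_zero
    intro i _
    rw [(hk i).2.2.2.2, map_zero, mul_zero]
  have m10 : IRRA_M Z 1 0 = -IRRA_M Z 0 1 := by
    rw [IRRA_M_apply, IRRA_M_apply, ← Finset.sum_neg_distrib]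
    refine Finset.sum_congr rfl fun i _ => ?_
    rw [(hk i).2.1, map_neg]
    ring
  have m21 : IRRA_M Z 2 1 = -IRRA_M Z 1 2 := by
    rw [IRRA_M_apply, IRRA_M_apply, ← Finset.sum_neg_distrib]
    refine Finset.sum_congr rfl fun i _ => ?_
    rw [(hk i).2.2.2.1, map_neg]
    ring
  have m11 : IRRA_M Z 1 1 = -IRRA_M Z 0 2 - IRRA_M Z 2 0 := by
    rw [IRRA_M_apply, IRRA_M_apply, IRRA_M_apply, ← Finset.sum_neg_distrib,
      ← Finset.sum_sub_distrib]
    refine Finset.sum_congr rfl fun i _ => ?_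
    rw [(hk i).2.2.1, map_sub, map_neg]
    ring
  have hL : (IRRA_M Z 0 2 + IRRA_M Z 2 0).IsHomogeneous 1 := by
    have := IRRA_lin (fun i => Z i 0 2 + Z i 2 0)
    convert this using 1
    rw [IRRA_M_apply, IRRA_M_apply, ← Finset.sum_add_distrib]
    refine Finset.sum_congr rfl fun i _ => ?_
    simp only [map_add]
    ring
  refine hG.nolin hL (Q := IRRA_M Z 0 1 * IRRA_M Z 1 2 + IRRA_M Z 0 2 * IRRA_M Z 2 0) ?_
  rw [Matrix.det_fin_three, m00, m22, m10, m21, m11]
  ring

/-- the coefficients of a basis of a multiple of a span -/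
theorem IRRA_coef {s t : Fin 3 → K} (hs : LinearIndependent F s) {ξ : K}
    (h : Submodule.span F (Set.range s) ≤ sc ξ (Submodule.span F (Set.range t))) :
    ∃ G : Matrix (Fin 3) (Fin 3) F, IsUnit G.det ∧ ∀ j, s j = ξ * ∑ k, G j k • t k := by
  have h1 : ∀ j, ∃ g : Fin 3 → F, s j = ξ * ∑ k, g k • t k := by
    intro j
    have h2 : s j ∈ sc ξ (Submodule.span F (Set.range t)) := h (Submodule.subset_span ⟨j, rfl⟩)
    unfold sc at h2
    rw [Submodule.mem_map] at h2
    obtain ⟨y, hy, hys⟩ := h2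
    obtain ⟨g, hg⟩ := (Submodule.mem_span_range_iff_exists_fun F).1 hy
    refine ⟨g, ?_⟩
    rw [hg, ← hys]
    rfl
  choose g hg using h1
  refine ⟨Matrix.of g, ?_, hg⟩
  rw [isUnit_iff_ne_zero]
  intro hdet
  obtain ⟨c, hc, hcG⟩ := Matrix.exists_vecMul_eq_zero_iff.2 hdet
  apply hc
  funext j
  refine Fintype.linearIndependent_iff.1 hs c ?_ j
  have h3 : ∑ j, c j • s j = ξ * ∑ k, (Matrix.vecMul c (Matrix.of g)) k • t k := by
    simp only [Matrix.vecMul, dotProduct, Finset.sum_smul, Matrix.of_apply]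
    rw [Finset.sum_comm, Finset.mul_sum]
    refine Finset.sum_congr rfl fun j _ => ?_
    rw [hg j, ← mul_smul_comm, Finset.smul_sum]
    congr 1
    refine Finset.sum_congr rfl fun k _ => ?_
    rw [smul_smul]
  rw [h3, hcG]
  simp

theorem IRRA_mem {t s : Fin 3 → K} {X : Matrix (Fin 3) (Fin 3) F} :
    X ∈ NN F t s ↔ ∑ j, t j * ∑ k, X j k • s k = 0 := by
  have h1 : X ∈ NN F t s ↔ ∑ i, ∑ j, X i j • (t i * s j) = 0 := Iff.rfl
  rw [h1]
  simp only [Finset.mul_sum, mul_smul_comm]

theorem IRRA_apply_mul (X G : Matrix (Fin 3) (Fin 3) F) (t : Fin 3 → K) (j : Fin 3) :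
    ∑ k, (X * G) j k • t k = ∑ k, X j k • ∑ l, G k l • t l := by
  simp only [Finset.smul_sum, Matrix.mul_apply, Finset.sum_smul]
  rw [Finset.sum_comm]
  refine Finset.sum_congr rfl fun k _ => Finset.sum_congr rfl fun l _ => ?_
  rw [smul_smul]

theorem IRRA_mul_apply (X G : Matrix (Fin 3) (Fin 3) F) (t v : Fin 3 → K) :
    ∑ j, t j * ∑ k, (G.transpose * X) j k • v k =
      ∑ l, (∑ j, G l j • t j) * ∑ k, X l k • v k := by
  simp only [Fin.sum_univ_three, Matrix.mul_apply, Matrix.transpose_apply, Algebra.smul_def,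
    map_add, map_mul]
  ring

/-- the two spaces are not similar -/
theorem IRRA_notSim [Finite F] (hB : Big F K) {X : Fin 3 → Matrix (Fin 3) (Fin 3) F}
    (hX : IRRA_G X) {t s : Fin 3 → K} (ht : LinearIndependent F t) (hs : LinearIndependent F s)
    (h : ∀ i, X i ∈ NN F t s) :
    ¬ Sim (Submodule.span F (Set.range s)) (Submodule.span F (Set.range t)) := by
  rintro ⟨ξ, hξ, hsim⟩
  obtain ⟨G, hG, hGs⟩ := IRRA_coef hs (le_of_eq hsim)
  have h1 : ∀ i, X i * G ∈ NN F t t := by
    intro i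
    rw [IRRA_mem]
    have h2 := IRRA_mem.1 (h i)
    simp only [hGs] at h2
    simp only [IRRA_apply_mul]
    have h3 : ξ * ∑ j, t j * ∑ k, X i j k • ∑ l, G k l • t l = 0 := by
      rw [← h2, Finset.mul_sum]
      refine Finset.sum_congr rfl fun j _ => ?_
      rw [mul_left_comm]
      congr 1
      rw [Finset.mul_sum]
      refine Finset.sum_congr rfl fun k _ => ?_
      rw [mul_smul_comm]
    exact (mul_eq_zero.1 h3).resolve_left hξ
  have hG1 : IRRA_G (fun i => X i * G) := by
    have := hX.mul (P := 1) (Q := G) (by simp) hG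
    simpa only [Matrix.one_mul] using this
  by_cases hcon : Con (Submodule.span F (Set.range t))
  · obtain ⟨w, a, hw, ha, hwa⟩ := hcon
    have hr : ({1, a, a ^ 2} : Set K) = Set.range ![1, a, a ^ 2] := by
      ext x
      constructor
      · rintro (rfl | rfl | rfl)
        · exact ⟨0, rfl⟩
        · exact ⟨1, rfl⟩
        · exact ⟨2, rfl⟩
      · rintro ⟨i, rfl⟩
        fin_cases i <;> simp
    rw [hr] at hwa
    obtain ⟨H, hH, hHt⟩ := IRRA_coef ht (le_of_eq hwa)
    refine IRRA_conic hB ha (Z := fun i => H.transpose * (X i * G) * H) ?_ ?_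
    · exact hG1.mul (by rwa [Matrix.det_transpose]) hH
    · intro i
      rw [IRRA_mem]
      rw [Matrix.mul_assoc, IRRA_mul_apply]
      have h2 := IRRA_mem.1 (h1 i)
      have h3 : (w * w) * ∑ l, (∑ j, H l j • (![1, a, a ^ 2] : Fin 3 → K) j) *
          ∑ k, (X i * G * H) l k • (![1, a, a ^ 2] : Fin 3 → K) k = 0 := by
        rw [← h2, Finset.mul_sum]
        refine Finset.sum_congr rfl fun l _ => ?_
        rw [IRRA_apply_mul (X i * G) H]
        have h4 : ∑ k, (X i * G) l k • t k =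
            w * ∑ k, (X i * G) l k • ∑ j, H k j • (![1, a, a ^ 2] : Fin 3 → K) j := by
          rw [Finset.mul_sum]
          refine Finset.sum_congr rfl fun k _ => ?_
          rw [hHt k, mul_smul_comm]
        rw [h4, hHt l]
        ring
      exact (mul_eq_zero.1 h3).resolve_left (mul_ne_zero hw hw)
  · apply hG1.irr.ne_zero
    apply IRRA_alt
    intro i
    by_contra hnot
    exact hcon (con_of_quadric hB ht (h1 i) hnot)

/-- **IRRA** -/
theorem real_of_det [Finite F] [FiniteDimensional F K] (hB : Big F K)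
    {X : Fin 3 → Matrix (Fin 3) (Fin 3) F} {C : MvPolynomial (Fin 3) F} (hC : Irreducible C)
    (hhom : C.IsHomogeneous 3)
    (hdet : (∑ i, (MvPolynomial.X i : MvPolynomial (Fin 3) F) •
      (X i).map (MvPolynomial.C : F →+* MvPolynomial (Fin 3) F)).det = C)
    (hrk : ∀ v : Fin 3 → F, v ≠ 0 → ∀ a b : Fin 3 → F, ∑ i, v i • X i ≠ Matrix.vecMulVec a b)
    {u : Fin 3 → K} (hu : LinearIndependent F u) (hCu : MvPolynomial.aeval u C = 0) :
    Real33 F K (zeros C) := by
  subst hdet
  have hG : IRRA_G X := ⟨hC, hhom, hrk⟩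
  change MvPolynomial.aeval u (IRRA_M X).det = 0 at hCu
  rw [IRRA_aeval] at hCu
  -- the vector `s`
  obtain ⟨s, hs0, hsA⟩ := Matrix.exists_mulVec_eq_zero_iff.2 hCu
  have hu0 : u ≠ 0 := by
    rintro rfl
    exact hu.ne_zero 0 rfl
  have hA : ∀ j, ∑ i, u i * ∑ k, X i j k • s k = 0 := by
    intro j
    have h1 := congrFun hsA j
    simp only [Matrix.mulVec, dotProduct, Matrix.of_apply, Pi.zero_apply] at h1
    rw [← h1]
    simp only [Fin.sum_univ_three, Algebra.smul_def]
    ring
  -- the vector `t`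
  have hW : (Matrix.of (fun i j => ∑ k, X i j k • s k) : Matrix (Fin 3) (Fin 3) K).det = 0 := by
    rw [← Matrix.exists_vecMul_eq_zero_iff]
    refine ⟨u, hu0, ?_⟩
    funext j
    simp only [Matrix.vecMul, dotProduct, Matrix.of_apply, Pi.zero_apply]
    exact hA j
  obtain ⟨t, ht0, htA⟩ := Matrix.exists_mulVec_eq_zero_iff.2 hW
  have hNN : ∀ i, X i ∈ NN F t s := by
    intro i
    rw [IRRA_mem]
    have h1 := congrFun htA i
    simp only [Matrix.mulVec, dotProduct, Matrix.of_apply, Pi.zero_apply] at h1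
    rw [← h1]
    refine Finset.sum_congr rfl fun j _ => ?_
    rw [mul_comm]
  -- independence
  have hs : LinearIndependent F s := by
    by_contra hs
    obtain ⟨Q, hQ, x, y, hxy⟩ := IRRA_dep hs
    have hG1 : IRRA_G (fun i => X i * Q) := by
      have := hG.mul (P := 1) (Q := Q) (by simp) hQ
      simpa only [Matrix.one_mul] using this
    obtain ⟨rfl, rfl⟩ := IRRA_right hB hG1 hu (x := x) (y := y) (fun j => by
      have h1 := hA j
      simp only [hxy] at h1
      rw [← h1]
      simp only [Fin.sum_univ_three, Matrix.mul_apply, Algebra.smul_def, map_add, map_mul]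
      ring)
    apply hs0
    funext j
    rw [hxy j]
    simp
  have ht : LinearIndependent F t := by
    by_contra ht
    obtain ⟨Q, hQ, x, y, hxy⟩ := IRRA_dep ht
    have hG1 : IRRA_G (fun i => Q.transpose * X i) := by
      have := hG.mul (P := Q.transpose) (Q := 1) (by rwa [Matrix.det_transpose]) (by simp)
      simpa only [Matrix.mul_one] using this
    obtain ⟨rfl, rfl⟩ := IRRA_left hB hG1 hs (x := x) (y := y) (fun i => by
      have h1 := IRRA_mem.1 (hNN i)
      simp only [hxy] at h1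
      rw [← h1]
      simp only [Fin.sum_univ_three, Matrix.mul_apply, Matrix.transpose_apply, Algebra.smul_def,
        map_add, map_mul]
      ring)
    apply ht0
    funext j
    rw [hxy j]
    simp
  have hsim := IRRA_notSim hB hG ht hs hNN
  -- the kernel is the span of the `X i`
  let φ : (Fin 3 → F) →ₗ[F] Matrix (Fin 3) (Fin 3) F :=
    { toFun := fun v => ∑ i, v i • X i
      map_add' := fun v w => by
        simp only [Pi.add_apply, add_smul, Finset.sum_add_distrib]
      map_smul' := fun c v => by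
        simp only [Pi.smul_apply, smul_assoc, ← Finset.smul_sum, RingHom.id_apply] }
  have hφ : ∀ v, φ v = ∑ i, v i • X i := fun v => rfl
  have hinj : Function.Injective φ := by
    rw [← LinearMap.ker_eq_bot, LinearMap.ker_eq_bot']
    intro v hv
    by_contra hv0
    apply hrk v hv0 0 0
    rw [← hφ, hv]
    ext i j
    simp [Matrix.vecMulVec_apply]
  have hle : LinearMap.range φ ≤ NN F t s := by
    rintro _ ⟨v, rfl⟩
    rw [hφ]
    exact Submodule.sum_mem _ fun i _ => Submodule.smul_mem _ _ (hNN i)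
  have hfr : finrank F (LinearMap.range φ) = 3 := by
    rw [LinearMap.finrank_range_of_inj hinj]
    simp
  have hN3 : finrank F (NN F t s) ≤ 3 := by
    by_contra h4
    exact hsim (four_le hB ht hs (by omega))
  have heq : LinearMap.range φ = NN F t s :=
    Submodule.eq_of_le_of_finrank_le hle (by rw [hfr]; exact hN3)
  have hsing : sing (NN F t s) = zeros (IRRA_M X).det := by
    unfold sing zeros
    symm
    refine Nat.card_congr (Equiv.ofBijective (fun v => ⟨φ v.1, ?_, ?_, ?_⟩) ⟨?_, ?_⟩)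
    · rw [← heq]
      exact ⟨v.1, rfl⟩
    · intro h
      exact v.2.1 (hinj (by rw [h, map_zero]))
    · rw [hφ, ← IRRA_eval]
      exact v.2.2
    · intro v w hvw
      apply Subtype.ext
      exact hinj (congrArg Subtype.val hvw)
    · rintro ⟨Y, hY, hY0, hYd⟩
      rw [← heq] at hY
      obtain ⟨v, rfl⟩ := hY
      refine ⟨⟨v, ?_, ?_⟩, rfl⟩
      · rintro rfl
        exact hY0 (map_zero φ)
      · rw [IRRA_eval, ← hφ]
        exact hYd
  have hfs : finrank F ↥(Submodule.span F (Set.range s)) = 3 := by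
    rw [finrank_span_eq_card hs]
    simp
  have hft : finrank F ↥(Submodule.span F (Set.range t)) = 3 := by
    rw [finrank_span_eq_card ht]
    simp
  refine ⟨_, _, hfs, hft, hsim, ?_⟩
  have hc := card_sing ht hs
  rw [inn_three hfs hft hsim, mul_zero, add_zero] at hc
  rw [← hc, hsing]
  rfl

end Pool.Agent.Helper74.CW
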